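import Mathlib

/-! Percolation with constant freezing is not positively associated. -/

open Finset

namespace Pool.Agent.H.MP_b6680e_pr

section
open Classical
variable {V : Type} [Fintype V]

noncomputable def clusters (ω : Finset (Sym2 V)) : Finset (Finset V) :=
  univ.image fun v => univ.filter fun u => (SimpleGraph.fromEdgeSet (ω : Set (Sym2 V))).Reachable v u

noncomputable def oe (G : SimpleGraph V) (F : Finset V) (ω : Finset (Sym2 V)) : Finset (Sym2 V) :=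
  univ.filter fun e => e ∈ G.edgeSet ∧ e ∉ ω ∧ ∀ v ∈ e, v ∉ F

noncomputable def wc (F : Finset V) (ω : Finset (Sym2 V)) : Finset (Finset V) := (clusters ω).filter fun C => ¬ C ⊆ F

noncomputable def pr (G : SimpleGraph V) (α : ℝ) (A : Set (Finset (Sym2 V))) : ℕ → Finset V → Finset (Sym2 V) → ℝ
  | 0, _, ω => if ω ∈ A then 1 else 0
  | k + 1, F, ω => if F = univ then (if ω ∈ A then 1 else 0) else
      (∑ e ∈ oe G F ω, pr G α A k F (insert e ω) + α * ∑ C ∈ wc F ω, pr G α A k (F ∪ C) ω) /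
        (#(oe G F ω) + α * #(wc F ω))

end

abbrev W := Finset (Sym2 (Fin 5))

def ed : Fin 5 → Sym2 (Fin 5) := ![s(3, 4), s(0, 3), s(2, 4), s(1, 2), s(0, 2)]

def em (i : ℕ) : ℕ := [24, 9, 20, 6, 5].getD i 0

def toF (f : ℕ) : Finset (Fin 5) := univ.filter fun v => f.testBit v

def toW (w : ℕ) : W := (toF w).image ed

lemma edi : Function.Injective ed := by decide

def adj (w x u : ℕ) : Bool := (List.range 5).any fun i => w.testBit i && em i == 2 ^ x ||| 2 ^ u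

lemma adj_iff (w : ℕ) (x u : Fin 5) : s(x, u) ∈ toW w ↔ adj w x u := by
  have : ∀ i x u : Fin 5, ed i = s(x, u) ↔ em i = 2 ^ x.1 ||| 2 ^ u.1 := by decide
  simp only [toW, toF, adj, mem_image, mem_filter, mem_univ, true_and, this, List.any_eq_true, List.mem_range,
    Bool.and_eq_true, beq_iff_eq]
  exact ⟨fun ⟨i, h⟩ => ⟨i, i.2, h⟩, fun ⟨i, l, h⟩ => ⟨⟨i, l⟩, h⟩⟩

def st (w S : ℕ) : ℕ := (List.range 5).foldr (fun i a => if w.testBit i && S &&& em i != 0 then a ||| em i else a) S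

def cl (w v : ℕ) : ℕ := st w (st w (st w (st w (2 ^ v))))

lemma cl_fix : ∀ w < 32, ∀ v : Fin 5, cl w v < 32 ∧ (cl w v).testBit v ∧
    ∀ x u : Fin 5, (cl w v).testBit x → adj w x u → (cl w v).testBit u := by decide +kernel

lemma st_sp : ∀ w < 32, ∀ S < 32, st w S < 32 ∧ ∀ u : Fin 5, (st w S).testBit u → S.testBit u ∨
    ∃ x : Fin 5, S.testBit x ∧ adj w x u := by decide +kernel

def Re (w : ℕ) (v : Fin 5) (S : ℕ) : Prop :=
  S < 32 ∧ ∀ u : Fin 5, S.testBit u → (SimpleGraph.fromEdgeSet (toW w : Set (Sym2 (Fin 5)))).Reachable v u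

lemma st_re {w S : ℕ} (l : w < 32) {v : Fin 5} (h : Re w v S) : Re w v (st w S) := by
  refine ⟨(st_sp w l S h.1).1, fun u t => ?_⟩
  rcases (st_sp w l S h.1).2 u t with t | ⟨x, a, b⟩
  · exact h.2 u t
  · by_cases e : x = u
    · exact h.2 u (e ▸ a)
    · exact (h.2 x a).trans (SimpleGraph.Adj.reachable (by simpa using ⟨(adj_iff _ _ _).2 b, e⟩))

lemma cl_iff {w : ℕ} (h : w < 32) (v u : Fin 5) :
    (SimpleGraph.fromEdgeSet (toW w : Set (Sym2 (Fin 5)))).Reachable v u ↔ (cl w v).testBit u := by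
  obtain ⟨-, a, b⟩ := cl_fix w h v
  refine ⟨fun r => ?_, (st_re h (st_re h (st_re h (st_re h ⟨?_, fun u t => ?_⟩)))).2 u⟩
  · rw [SimpleGraph.reachable_iff_reflTransGen] at r
    induction r with
    | refl => exact a
    | tail _ t ih => exact b _ _ ih ((adj_iff _ _ _).1 ((SimpleGraph.fromEdgeSet_adj _).1 t).1)
  · exact Nat.pow_lt_pow_right one_lt_two v.2
  · rw [Nat.testBit_two_pow, decide_eq_true_eq, ← Fin.ext_iff] at t
    exact t ▸ .rfl

def oe' (f w : ℕ) : Finset (Fin 5) := univ.filter fun i => !w.testBit i && f &&& em i == 0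

def wc' (f w : ℕ) : Finset ℕ := (univ.image fun v : Fin 5 => cl w v).filter fun c => f ||| c ≠ f

def G : SimpleGraph (Fin 5) := .fromEdgeSet (Set.range ed)

lemma GE : G.edgeSet = Set.range ed := by
  rw [G, SimpleGraph.edgeSet_fromEdgeSet]
  refine sdiff_eq_left.2 (Set.disjoint_left.2 ?_)
  rintro _ ⟨i, rfl⟩
  revert i
  simp only [Sym2.mem_diagSet]
  decide

lemma toF_or (a b : ℕ) : toF (a ||| b) = toF a ∪ toF b := by ext; simp [toF]

lemma toF_inj : ∀ a < 32, ∀ b < 32, (∀ v : Fin 5, a.testBit v = b.testBit v) → a = b := by decide +kernel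

lemma toF_eq {a b : ℕ} (ha : a < 32) (hb : b < 32) : toF a = toF b ↔ a = b :=
  ⟨fun e => toF_inj a ha b hb fun v => by simpa [toF] using Finset.ext_iff.1 e v, congrArg _⟩

def Loc (a : ℕ → Bool) (g : ℕ → ℕ → ℚ) : Prop := ∀ f < 32, ∀ w < 32,
  g f w = if f = 31 then (if a w then 1 else 0) else
    (∑ i ∈ oe' f w, g f (w ||| 2 ^ i.1) + 1 / 20 * ∑ c ∈ wc' f w, g (f ||| c) w) / (#(oe' f w) + 1 / 20 * #(wc' f w))

lemma val {a : ℕ → Bool} {g : ℕ → ℕ → ℚ} (h : Loc a g) {A : Set W} (hA : ∀ w < 32, toW w ∈ A ↔ a w) (k : ℕ) :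
    ∀ f < 32, ∀ w < 32, 10 ≤ k + #(toF f) + #(toF w) → pr G (1 / 20) A k (toF f) (toW w) = g f w := by
  have U : toF 31 = univ := by decide
  induction k with
  | zero =>
    intro f hf w hw l
    have b := card_le_univ (toF f)
    have c := card_le_univ (toF w)
    rw [h f hf w hw, if_pos ((toF_eq hf (by norm_num)).1 (U ▸ eq_univ_of_card _ (by simp at b c ⊢; omega))), pr]
    by_cases e : a w <;> simp [e, hA w hw]
  | succ k ih =>
    intro f hf w hw l
    have e0 : ∀ f < 32, ∀ i : Fin 5, (∀ v : Fin 5, v ∈ ed i → f.testBit v = false) ↔ f &&& em i = 0 := by decide +kernel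
    have e1 : oe G (toF f) (toW w) = (oe' f w).image ed := by
      ext e
      simp only [oe, oe', GE, mem_filter, mem_univ, true_and, mem_image]
      refine ⟨fun ⟨⟨i, r⟩, t⟩ => ⟨i, ?_, r⟩, fun ⟨i, t, r⟩ => ⟨⟨i, r⟩, ?_⟩⟩ <;> subst r <;>
        simpa [toW, toF, edi.eq_iff, e0 f hf] using t
    have e2 : wc (toF f) (toW w) = (wc' f w).image toF := by
      ext C
      simp only [wc, wc', clusters, cl_iff hw, mem_filter, mem_image, mem_univ, true_and]
      have q (v : Fin 5) : toF (cl w v) ⊆ toF f ↔ f ||| cl w v = f := by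
        rw [← toF_eq (Nat.or_lt_two_pow (n := 5) hf (cl_fix w hw v).1) hf, toF_or, union_eq_left]
      constructor
      · rintro ⟨⟨v, rfl⟩, t⟩
        exact ⟨_, ⟨⟨v, rfl⟩, fun e => t fun x r => (q v).2 e (by simpa [toF] using r)⟩, by ext; simp [toF]⟩
      · rintro ⟨_, ⟨⟨v, rfl⟩, t⟩, rfl⟩
        exact ⟨⟨v, by ext; simp [toF]⟩, fun e => t ((q v).1 e)⟩
    have w32 {c} (t : c ∈ wc' f w) : c < 32 := by
      obtain ⟨v, -, rfl⟩ := mem_image.1 (mem_filter.1 t).1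
      exact (cl_fix w hw v).1
    have inj : Set.InjOn toF (wc' f w) := fun a s b t e => (toF_eq (w32 s) (w32 t)).1 e
    rw [h f hf w hw, pr, e1, e2, sum_image edi.injOn, sum_image inj, card_image_of_injective _ edi,
      card_image_of_injOn inj]
    by_cases b : f = 31
    · rw [if_pos b, if_pos (b ▸ U)]
      by_cases e : a w <;> simp [e, hA w hw]
    rw [if_neg b, if_neg fun e => b ((toF_eq hf (by norm_num)).1 (e.trans U.symm))]
    push_cast
    congr 2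
    · refine sum_congr rfl fun i t => ?_
      have s : toF (2 ^ i.1) = {i} := by ext; simp [toF, Nat.testBit_two_pow, Fin.ext_iff, eq_comm]
      have n : i ∉ toF w := by simp [oe'] at t; simp [toF, t.1]
      rw [← ih f hf _ (Nat.or_lt_two_pow (n := 5) hw (Nat.pow_lt_pow_right one_lt_two i.2))
        (by rw [toF_or, s, union_comm, ← insert_eq, card_insert_of_notMem n]; omega)]
      congr 1
      ext
      simp [toW, toF_or, s]
    · congr 1
      refine sum_congr rfl fun c t => ?_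
      have o := Nat.or_lt_two_pow (n := 5) hf (w32 t)
      have := card_lt_card (show toF f ⊂ toF (f ||| c) from (toF_or f c ▸ subset_union_left).ssubset_of_ne fun r =>
        (mem_filter.1 t).2 ((toF_eq o hf).1 r.symm))
      rw [← ih _ o w hw (by omega)]
      congr 1
      ext
      simp [toF_or]

def t3 : List (ℕ × ℕ) :=
  [(401179, 13141359), (1, 11), (401179, 13141359), (1, 11), (13, 473), (1, 11), (13, 473), (1, 11), (1, 1), (1, 1),
   (1, 1), (1, 1), (1, 1), (1, 1), (1, 1), (1, 1), (1, 11), (1, 1), (1, 11), (1, 1), (1, 11), (1, 1), (1, 11),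
   (1, 1), (1, 1), (1, 1), (1, 1), (1, 1), (1, 1), (1, 1), (1, 1), (1, 1), (493, 14553), (1, 11), (493, 14553),
   (1, 11), (13, 473), (1, 11), (13, 473), (1, 11), (1, 1), (1, 1), (1, 1), (1, 1), (1, 1), (1, 1), (1, 1), (1, 1),
   (1, 11), (1, 1), (1, 11), (1, 1), (1, 11), (1, 1), (1, 11), (1, 1), (1, 1), (1, 1), (1, 1), (1, 1), (1, 1),
   (1, 1), (1, 1), (1, 1), (401179, 13141359), (1, 11), (401179, 13141359), (1, 11), (13, 473), (1, 11), (13, 473),
   (1, 11), (1, 1), (1, 1), (1, 1), (1, 1), (1, 1), (1, 1), (1, 1), (1, 1), (1, 11), (1, 1), (1, 11), (1, 1),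
   (1, 11), (1, 1), (1, 11), (1, 1), (1, 1), (1, 1), (1, 1), (1, 1), (1, 1), (1, 1), (1, 1), (1, 1), (493, 14553),
   (1, 11), (493, 14553), (1, 11), (13, 473), (1, 11), (13, 473), (1, 11), (1, 1), (1, 1), (1, 1), (1, 1), (1, 1),
   (1, 1), (1, 1), (1, 1), (1, 11), (1, 1), (1, 11), (1, 1), (1, 11), (1, 1), (1, 11), (1, 1), (1, 1), (1, 1),
   (1, 1), (1, 1), (1, 1), (1, 1), (1, 1), (1, 1), (493, 14553), (1, 11), (493, 14553), (1, 11), (13, 473), (1, 11),
   (13, 473), (1, 11), (1, 1), (1, 1), (1, 1), (1, 1), (1, 1), (1, 1), (1, 1), (1, 1), (1, 11), (1, 1), (1, 11),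
   (1, 1), (1, 11), (1, 1), (1, 11), (1, 1), (1, 1), (1, 1), (1, 1), (1, 1), (1, 1), (1, 1), (1, 1), (1, 1), (1, 21),
   (1, 11), (1, 21), (1, 11), (1, 21), (1, 11), (1, 21), (1, 11), (1, 1), (1, 1), (1, 1), (1, 1), (1, 1), (1, 1),
   (1, 1), (1, 1), (1, 11), (1, 1), (1, 11), (1, 1), (1, 11), (1, 1), (1, 11), (1, 1), (1, 1), (1, 1), (1, 1),
   (1, 1), (1, 1), (1, 1), (1, 1), (1, 1), (493, 14553), (1, 11), (493, 14553), (1, 11), (13, 473), (1, 11),
   (13, 473), (1, 11), (1, 1), (1, 1), (1, 1), (1, 1), (1, 1), (1, 1), (1, 1), (1, 1), (1, 11), (1, 1), (1, 11),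
   (1, 1), (1, 11), (1, 1), (1, 11), (1, 1), (1, 1), (1, 1), (1, 1), (1, 1), (1, 1), (1, 1), (1, 1), (1, 1), (1, 21),
   (1, 11), (1, 21), (1, 11), (1, 21), (1, 11), (1, 21), (1, 11), (1, 1), (1, 1), (1, 1), (1, 1), (1, 1), (1, 1),
   (1, 1), (1, 1), (1, 11), (1, 1), (1, 11), (1, 1), (1, 11), (1, 1), (1, 11), (1, 1), (1, 1), (1, 1), (1, 1),
   (1, 1), (1, 1), (1, 1), (1, 1), (1, 1)]

def t2 : List (ℕ × ℕ) :=
  [(523616, 30663171), (13, 473), (401179, 13141359), (1, 11), (1, 1), (1, 1), (1, 1), (1, 1), (8, 473), (13, 473),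
   (13, 473), (1, 11), (1, 1), (1, 1), (1, 1), (1, 1), (13, 473), (1, 11), (1, 11), (1, 1), (1, 1), (1, 1), (1, 1),
   (1, 1), (13, 473), (1, 11), (1, 11), (1, 1), (1, 1), (1, 1), (1, 1), (1, 1), (226889, 13141359), (13, 473),
   (493, 14553), (1, 11), (1, 1), (1, 1), (1, 1), (1, 1), (8, 473), (13, 473), (13, 473), (1, 11), (1, 1), (1, 1),
   (1, 1), (1, 1), (13, 473), (1, 11), (1, 11), (1, 1), (1, 1), (1, 1), (1, 1), (1, 1), (13, 473), (1, 11), (1, 11),
   (1, 1), (1, 1), (1, 1), (1, 1), (1, 1), (226889, 13141359), (13, 473), (493, 14553), (1, 11), (1, 1), (1, 1),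
   (1, 1), (1, 1), (8, 473), (13, 473), (13, 473), (1, 11), (1, 1), (1, 1), (1, 1), (1, 1), (13, 473), (1, 11),
   (1, 11), (1, 1), (1, 1), (1, 1), (1, 1), (1, 1), (13, 473), (1, 11), (1, 11), (1, 1), (1, 1), (1, 1), (1, 1),
   (1, 1), (263, 14553), (13, 473), (1, 21), (1, 11), (1, 1), (1, 1), (1, 1), (1, 1), (263, 14553), (13, 473),
   (1, 21), (1, 11), (1, 1), (1, 1), (1, 1), (1, 1), (13, 473), (1, 11), (1, 11), (1, 1), (1, 1), (1, 1), (1, 1),
   (1, 1), (13, 473), (1, 11), (1, 11), (1, 1), (1, 1), (1, 1), (1, 1), (1, 1)]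

def t0 : List (ℕ × ℕ) :=
  [(211, 417186), (7, 1892), (13, 9933), (13, 473), (13, 473), (1, 11), (13, 473), (1, 11), (8, 473), (13, 473),
   (13, 473), (1, 11), (1, 1), (1, 1), (1, 1), (1, 1), (7, 1892), (1, 11), (13, 473), (1, 1), (1, 11), (1, 1),
   (1, 11), (1, 1), (13, 473), (1, 11), (1, 11), (1, 1), (1, 1), (1, 1), (1, 1), (1, 1)]


def lk (t : List (ℕ × ℕ)) (i : ℕ) : ℚ := mkRat (t.getD i (0, 1)).1 (t.getD i (0, 1)).2

def g3 (f w : ℕ) : ℚ := if w % 4 = 0 then lk t3 (f + 8 * w) else 0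

def g2 (f w : ℕ) : ℚ := if w / 4 = 0 then lk t2 (f + 32 * w) else 0

def g0 (f w : ℕ) : ℚ := if w = 0 then lk t0 f else 0

lemma lA : Loc (· % 4 != 0) fun F ω => 1 - g3 F ω := by unfold Loc; decide +kernel

lemma lB : Loc (· / 4 != 0) fun F ω => 1 - g2 F ω := by unfold Loc; decide +kernel

lemma lC : Loc (fun w => w % 4 != 0 && w / 4 != 0) fun F ω => 1 - g3 F ω - g2 F ω + g0 F ω := by
  unfold Loc; decide +kernel

theorem main : ∃ (n : ℕ) (G : SimpleGraph (Fin n)) (α : ℝ) (A B : Set (Finset (Sym2 (Fin n)))), 0 < α ∧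
    IsUpperSet A ∧ IsUpperSet B ∧ ∀ k, n + G.edgeSet.ncard ≤ k →
      pr G α (A ∩ B) k ∅ ∅ < pr G α A k ∅ ∅ * pr G α B k ∅ ∅ := by
  refine ⟨5, G, 1 / 20, {ω | ed 0 ∈ ω ∨ ed 1 ∈ ω}, {ω | ed 2 ∈ ω ∨ ed 3 ∈ ω ∨ ed 4 ∈ ω}, by norm_num,
    fun _ _ l t => t.imp (@l _) (@l _), fun _ _ l t => t.imp (@l _) (Or.imp (@l _) (@l _)), fun k l => ?_⟩
  rw [GE, Set.ncard_range_of_injective edi, Nat.card_fin] at l
  have m (w i) : ed i ∈ toW w ↔ w.testBit i := by simp [toW, toF, edi.eq_iff]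
  have a := val lA (A := {ω | ed 0 ∈ ω ∨ ed 1 ∈ ω}) (by simp only [Set.mem_ofPred_eq, m]; decide) k 0 (by norm_num) 0
    (by norm_num) (by omega)
  have b := val lB (A := {ω | ed 2 ∈ ω ∨ ed 3 ∈ ω ∨ ed 4 ∈ ω}) (by simp only [Set.mem_ofPred_eq, m]; decide) k 0
    (by norm_num) 0 (by norm_num) (by omega)
  have c := val lC (A := {ω | ed 0 ∈ ω ∨ ed 1 ∈ ω} ∩ {ω | ed 2 ∈ ω ∨ ed 3 ∈ ω ∨ ed 4 ∈ ω})
    (by simp only [Set.mem_inter_iff, Set.mem_ofPred_eq, m]; decide) k 0 (by norm_num) 0 (by norm_num) (by omega)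
  rw [show toW 0 = ∅ by simp [toW, toF], show toF 0 = ∅ by simp [toF]] at a b c
  rw [a, b, c]
  exact_mod_cast (by decide +kernel : 1 - g3 0 0 - g2 0 0 + g0 0 0 < (1 - g3 0 0) * (1 - g2 0 0))

end Pool.Agent.H.MP_b6680e_pr
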